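import Pool.Agent.W890.SF.Stm2

/-!
Project SAM (helper890): the asymptotic upper bound for all densities.
-/

set_option autoImplicit false

namespace Pool.Agent.W99.SAM

open Finset Filter Topology Pool.Agent.W890.SF

noncomputable def Phi (k : ℕ) (u : ℝ) : ℝ := max (1 - (1 - u) ^ k) (u / (1 - (k - 1) * u))

lemma one_sub_min (k : ℕ) (u : ℝ) (h : 0 < 1 - ((k : ℝ) - 1) * u) :
    1 - min ((1 - u) ^ k) ((1 - k * u) / (1 - (k - 1) * u)) = Phi k u := by
  unfold Phi
  have e : (1 - k * u) / (1 - ((k : ℝ) - 1) * u) = 1 - u / (1 - (k - 1) * u) := by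
    rw [eq_sub_iff_add_eq, ← add_div, div_eq_one_iff_eq h.ne']
    ring
  rw [e]
  rcases le_total ((1 - u) ^ k) (1 - u / (1 - ((k : ℝ) - 1) * u)) with h1 | h1
  · rw [min_eq_left h1, max_eq_left]
    linarith
  · rw [min_eq_right h1, max_eq_right]
    · ring
    · linarith

lemma exists_x2 (k : ℕ) (hk : 2 ≤ k) (x ε : ℝ) (hx : 0 < x) (hkx : k * x < 1) (hε : 0 < ε) :
    ∃ x2 : ℝ, x < x2 ∧ k * x2 < 1 ∧ Phi k x2 ≤ Phi k x + ε / 4 := by
  have hk' : (2 : ℝ) ≤ k := by exact_mod_cast hk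
  have hne : 1 - ((k : ℝ) - 1) * x ≠ 0 := by
    have : 0 < 1 - ((k : ℝ) - 1) * x := by nlinarith
    exact this.ne'
  have hc : ContinuousAt (Phi k) x := by
    have q1 : ContinuousAt (fun u : ℝ => 1 - (1 - u) ^ k) x := by fun_prop
    have q2 : ContinuousAt (fun u : ℝ => u / (1 - ((k : ℝ) - 1) * u)) x :=
      ContinuousAt.div continuousAt_id (by fun_prop) hne
    exact Filter.Tendsto.max q1 q2
  have h1 : ∀ᶠ u in 𝓝 x, Phi k u < Phi k x + ε / 4 :=
    hc.eventually (gt_mem_nhds (by linarith))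
  have hc2 : ContinuousAt (fun u : ℝ => (k : ℝ) * u) x := by fun_prop
  have h2 : ∀ᶠ u in 𝓝 x, (k : ℝ) * u < 1 := hc2.eventually (gt_mem_nhds hkx)
  have h3 : ∀ᶠ u in 𝓝[>] x, (Phi k u < Phi k x + ε / 4 ∧ (k : ℝ) * u < 1) :=
    (h1.and h2).filter_mono nhdsWithin_le_nhds
  have h4 : ∀ᶠ u in 𝓝[>] x, x < u := self_mem_nhdsWithin
  obtain ⟨u, hu1, hu2⟩ := (h3.and h4).exists
  exact ⟨u, hu2, hu1.2, hu1.1.le⟩

lemma choose_ge (k n : ℕ) (hn : k ≤ n) (hn1 : 1 ≤ n) (δ : ℝ) (h : (k : ℝ) ^ 2 ≤ δ * n) :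
    (1 - δ) * (n : ℝ) ^ k ≤ (k.factorial : ℝ) * (n.choose k : ℝ) := by
  have hn0 : (0 : ℝ) < n := by exact_mod_cast hn1
  have hkn : (k : ℝ) ≤ n := by exact_mod_cast hn
  have h1 : (((n + 1 - k : ℕ) : ℝ)) ^ k ≤ (k.factorial : ℝ) * (n.choose k : ℝ) := by
    have h0 := Nat.pow_le_choose (α := ℝ) k n
    rw [div_le_iff₀ (by exact_mod_cast k.factorial_pos)] at h0
    linarith
  refine le_trans ?_ h1
  have h2 : ((n + 1 - k : ℕ) : ℝ) = n * (1 + (-(((k : ℝ) - 1) / n))) := by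
    rw [Nat.cast_sub (by omega)]
    push_cast
    field_simp
    ring
  rw [h2, mul_pow, mul_comm ((1 : ℝ) - δ)]
  apply mul_le_mul_of_nonneg_left _ (by positivity)
  have h3 : -2 ≤ -(((k : ℝ) - 1) / n) := by
    have : ((k : ℝ) - 1) / n ≤ 2 := by
      rw [div_le_iff₀ hn0]
      linarith
    linarith
  have h4 := one_add_mul_le_pow h3 k
  refine le_trans ?_ h4
  have h5 : (k : ℝ) * (((k : ℝ) - 1) / n) ≤ δ := by
    rw [← mul_div_assoc, div_le_iff₀ hn0]
    have : (0 : ℝ) ≤ k := by positivity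
    nlinarith
  linarith

/-- enumeration of a `k`-set -/
noncomputable def gen {n : ℕ} (k : ℕ) (hn : 0 < n) (e : Finset (Fin n)) : Fin k → Fin n :=
  fun i => if h : e.card = k then e.orderEmbOfFin h i else ⟨0, hn⟩

lemma gen_eq {n k : ℕ} (hn : 0 < n) {e : Finset (Fin n)} (h : e.card = k) :
    gen k hn e = e.orderEmbOfFin h := by
  funext i
  unfold gen
  rw [dif_pos h]

lemma bad_count (n k : ℕ) (hn : 0 < n) (y : Fin n → ℝ) :
    (k.factorial : ℝ) * ((((univ : Finset (Fin n)).powersetCard k).filter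
      (fun e => 1 ≤ ∑ v ∈ e, y v)).card : ℝ) ≤
    (n : ℝ) ^ k - (({f : Fin k → Fin n | ∑ i, y (f i) < 1}.ncard : ℕ) : ℝ) := by
  classical
  have h1 : {f : Fin k → Fin n | ∑ i, y (f i) < 1}.ncard =
      ((univ : Finset (Fin k → Fin n)).filter (fun f => ∑ i, y (f i) < 1)).card := by
    rw [Set.ncard_eq_toFinset_card']
    congr 1
    ext f
    simp
  have h2 := Finset.card_filter_add_card_filter_not (s := (univ : Finset (Fin k → Fin n)))
    (fun f => ∑ i, y (f i) < 1)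
  have h3 : (univ : Finset (Fin k → Fin n)).card = n ^ k := by
    rw [Finset.card_univ, Fintype.card_fun, Fintype.card_fin, Fintype.card_fin]
  rw [h3] at h2
  have h4 : (((univ : Finset (Fin n)).powersetCard k).filter
      (fun e => 1 ≤ ∑ v ∈ e, y v) ×ˢ (univ : Finset (Equiv.Perm (Fin k)))).card ≤
      ((univ : Finset (Fin k → Fin n)).filter (fun f => ¬ ∑ i, y (f i) < 1)).card := by
    apply Finset.card_le_card_of_injOn (fun p => gen k hn p.1 ∘ p.2)
    · rintro ⟨e, σ⟩ h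
      rw [mem_coe, mem_product, mem_filter, mem_powersetCard] at h
      obtain ⟨⟨⟨-, hc⟩, hs⟩, -⟩ := h
      rw [mem_coe, mem_filter]
      refine ⟨mem_univ _, ?_⟩
      rw [not_lt]
      simp only [Function.comp]
      rw [Equiv.sum_comp σ (fun i => y (gen k hn e i)), gen_eq hn hc]
      refine hs.trans (le_of_eq ?_)
      conv_lhs => rw [← Finset.map_orderEmbOfFin_univ e hc, Finset.sum_map]
      rfl
    · rintro ⟨e, σ⟩ h ⟨e', σ'⟩ h' heq
      rw [mem_coe, mem_product, mem_filter, mem_powersetCard] at h h'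
      have hc := h.1.1.2
      have hc' := h'.1.1.2
      simp only at heq hc hc'
      rw [gen_eq hn hc, gen_eq hn hc'] at heq
      have he : e = e' := by
        have r1 : Set.range (e.orderEmbOfFin hc ∘ σ) = e := by
          rw [EquivLike.range_comp, Finset.range_orderEmbOfFin]
        have r2 : Set.range (e'.orderEmbOfFin hc' ∘ σ') = e' := by
          rw [EquivLike.range_comp, Finset.range_orderEmbOfFin]
        rw [heq, r2] at r1
        exact_mod_cast r1.symm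
      subst he
      rw [Prod.mk.injEq]
      refine ⟨rfl, ?_⟩
      ext i : 1
      exact (e.orderEmbOfFin hc).injective (congrFun heq i)
  rw [Finset.card_product, Finset.card_univ, Fintype.card_perm, Fintype.card_fin] at h4
  rw [h1]
  have h5 : ((((univ : Finset (Fin n)).powersetCard k).filter
      (fun e => 1 ≤ ∑ v ∈ e, y v)).card : ℝ) * (k.factorial : ℝ) ≤
      (((univ : Finset (Fin k → Fin n)).filter (fun f => ¬ ∑ i, y (f i) < 1)).card : ℝ) := by
    exact_mod_cast h4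
  have h6 : (((univ : Finset (Fin k → Fin n)).filter (fun f => ∑ i, y (f i) < 1)).card : ℝ) +
      (((univ : Finset (Fin k → Fin n)).filter (fun f => ¬ ∑ i, y (f i) < 1)).card : ℝ) =
      (n : ℝ) ^ k := by exact_mod_cast h2
  linarith

theorem asy (h1 : S_SAG) (h2 : S_ROB) : S_ASY := by
  classical
  intro k hk x hx hkx ε hε
  have hk' : (2 : ℝ) ≤ k := by exact_mod_cast hk
  obtain ⟨x2, hx2, hkx2, hPhi⟩ := exists_x2 k hk x ε hx hkx hε
  have hx2pos : 0 < x2 := hx.trans hx2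
  have hx2lt : x2 < 1 := by nlinarith
  have hden : 0 < 1 - ((k : ℝ) - 1) * x := by nlinarith
  have hden2 : 0 < 1 - ((k : ℝ) - 1) * x2 := by nlinarith
  have hPpos : 0 < Phi k x := by
    unfold Phi
    exact lt_of_lt_of_le (div_pos hx hden) (le_max_right _ _)
  set P : ℝ := Phi k x with hP
  set x1 : ℝ := (x + x2) / 2 with hx1
  have hxx1 : x < x1 := by rw [hx1]; linarith
  have hx1x2 : x1 < x2 := by rw [hx1]; linarith
  have hx1pos : 0 < x1 := hx.trans hxx1
  set τ : ℝ := 1 - x1 / x2 with hτ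
  have hτpos : 0 < τ := by
    rw [hτ, sub_pos, div_lt_one hx2pos]
    exact hx1x2
  have h1τ : 1 - τ = x1 / x2 := by rw [hτ]; ring
  have h1τpos : 0 < 1 - τ := by rw [h1τ]; positivity
  set θ : ℝ := (1 - x / x1) / 2 with hθ
  have hθpos : 0 < θ := by
    rw [hθ]
    have : x / x1 < 1 := by rw [div_lt_one hx1pos]; exact hxx1
    linarith
  have hθx : (1 - θ) * x1 = (x1 + x) / 2 := by
    rw [hθ]
    field_simp
    ring
  have hfac : (0 : ℝ) < k.factorial := by exact_mod_cast k.factorial_pos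
  set c : ℝ := ε / (4 * k.factorial) with hc
  have hcpos : 0 < c := by rw [hc]; positivity
  obtain ⟨n1, hn1⟩ := h2 k hk c τ θ hcpos hτpos hθpos
  set δ : ℝ := min (1 / 2) (ε / 4 / (P + ε / 2)) with hδ
  have hPε : 0 < P + ε / 2 := by linarith
  have hδpos : 0 < δ := by
    rw [hδ]
    apply lt_min
    · norm_num
    · positivity
  have hδ1 : δ ≤ 1 / 2 := min_le_left _ _
  have hδ2 : δ * (P + ε / 2) ≤ ε / 4 := by
    have h := min_le_right (1 / 2 : ℝ) (ε / 4 / (P + ε / 2))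
    rw [← hδ, le_div_iff₀ hPε] at h
    exact h
  refine ⟨n1 + k + ⌈(k : ℝ) ^ 2 / δ⌉₊ + ⌈2 / (x1 - x)⌉₊ + 1, ?_⟩
  intro n hn F hF hFc
  have hnn1 : n1 ≤ n := by omega
  have hnk : k ≤ n := by omega
  have hn0 : 1 ≤ n := by omega
  have hn0' : (0 : ℝ) < n := by exact_mod_cast hn0
  have hnδ : (k : ℝ) ^ 2 ≤ δ * n := by
    have h3 : (k : ℝ) ^ 2 / δ ≤ n := by
      refine (Nat.le_ceil _).trans ?_
      exact_mod_cast (by omega : ⌈(k : ℝ) ^ 2 / δ⌉₊ ≤ n)
    rw [div_le_iff₀ hδpos] at h3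
    linarith
  have hnx : 2 ≤ (x1 - x) * n := by
    have h3 : 2 / (x1 - x) ≤ n := by
      refine (Nat.le_ceil _).trans ?_
      exact_mod_cast (by omega : ⌈2 / (x1 - x)⌉₊ ≤ n)
    rw [div_le_iff₀ (by linarith)] at h3
    linarith
  have hch := choose_ge k n hnk hn0 δ hnδ
  have hnpow : (0 : ℝ) < (n : ℝ) ^ k := by positivity
  have hA : Phi k x2 * (n : ℝ) ^ k ≤ (P + ε / 2) * ((k.factorial : ℝ) * (n.choose k : ℝ)) := by
    have h3 : Phi k x2 ≤ (P + ε / 2) * (1 - δ) := by nlinarith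
    calc Phi k x2 * (n : ℝ) ^ k ≤ ((P + ε / 2) * (1 - δ)) * (n : ℝ) ^ k :=
          mul_le_mul_of_nonneg_right h3 hnpow.le
      _ = (P + ε / 2) * ((1 - δ) * (n : ℝ) ^ k) := by ring
      _ ≤ (P + ε / 2) * ((k.factorial : ℝ) * (n.choose k : ℝ)) :=
          mul_le_mul_of_nonneg_left hch hPε.le
  have hB : (n : ℝ) ^ k ≤ 2 * ((k.factorial : ℝ) * (n.choose k : ℝ)) := by
    have h3 : (1 / 2 : ℝ) * (n : ℝ) ^ k ≤ (1 - δ) * (n : ℝ) ^ k :=
      mul_le_mul_of_nonneg_right (by linarith) hnpow.le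
    linarith
  have hFc' : (P + ε) * (n.choose k : ℝ) ≤ (F.card : ℝ) := hFc
  have : Nonempty (Fin n) := ⟨⟨0, hn0⟩⟩
  -- the claim
  have claim : ∀ y : Fin n → ℝ, (∀ v, 0 ≤ y v) → ∑ v, y v ≤ x1 * (n : ℝ) →
      c * ((Fintype.card (Fin n) : ℕ) : ℝ) ^ k ≤
        ((F.filter (fun e => ∑ v ∈ e, y v ≤ 1 - τ)).card : ℝ) := by
    intro y hy hys
    rw [Fintype.card_fin]
    set d : ℝ := (x2 * n - (∑ v, y v) / (1 - τ)) / n with hd
    have hd0 : 0 ≤ d := by
      rw [hd]
      apply div_nonneg _ hn0'.le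
      rw [sub_nonneg, div_le_iff₀ h1τpos, h1τ]
      have : x2 * n * (x1 / x2) = x1 * n := by field_simp
      rw [this]
      exact hys
    have hy'' : ∀ v, 0 ≤ y v / (1 - τ) + d := fun v =>
      add_nonneg (div_nonneg (hy v) h1τpos.le) hd0
    have hsum : ∑ v, (y v / (1 - τ) + d) = x2 * ((Fintype.card (Fin n) : ℕ) : ℝ) := by
      rw [Finset.sum_add_distrib, ← Finset.sum_div, Finset.sum_const, Finset.card_univ,
        Fintype.card_fin, nsmul_eq_mul, hd]
      field_simp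
      ring
    have h3 := h1 k (by omega) x2 hx2pos hx2lt hkx2 (Fin n) (fun v => y v / (1 - τ) + d) hy'' hsum
    rw [Fintype.card_fin] at h3
    have h4 := bad_count n k hn0 (fun v => y v / (1 - τ) + d)
    have h5 := one_sub_min k x2 hden2
    set bad := ((univ : Finset (Fin n)).powersetCard k).filter
      (fun e => 1 ≤ ∑ v ∈ e, (y v / (1 - τ) + d)) with hbad
    have h6 : (k.factorial : ℝ) * (bad.card : ℝ) ≤
        (k.factorial : ℝ) * ((P + ε / 2) * (n.choose k : ℝ)) := by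
      have h7 : (k.factorial : ℝ) * (bad.card : ℝ) ≤ Phi k x2 * (n : ℝ) ^ k := by
        rw [← h5, sub_mul, one_mul]
        linarith
      linarith
    have h7 : (bad.card : ℝ) ≤ (P + ε / 2) * (n.choose k : ℝ) := le_of_mul_le_mul_left h6 hfac
    have h8 : F \ bad ⊆ F.filter (fun e => ∑ v ∈ e, y v ≤ 1 - τ) := by
      intro e he
      rw [Finset.mem_sdiff] at he
      rw [mem_filter]
      refine ⟨he.1, ?_⟩
      have h9 : ∑ v ∈ e, (y v / (1 - τ) + d) < 1 := by
        by_contra hcon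
        rw [not_lt] at hcon
        apply he.2
        rw [hbad, mem_filter, mem_powersetCard]
        exact ⟨⟨Finset.subset_univ _, hF e he.1⟩, hcon⟩
      have h10 : (∑ v ∈ e, y v) / (1 - τ) ≤ ∑ v ∈ e, (y v / (1 - τ) + d) := by
        rw [Finset.sum_add_distrib, ← Finset.sum_div, Finset.sum_const, nsmul_eq_mul]
        have : 0 ≤ (e.card : ℝ) * d := by positivity
        linarith
      have h11 := h10.trans h9.le
      rw [div_le_one h1τpos] at h11
      exact h11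
    have h9 := Finset.card_le_card h8
    have h10 : F.card ≤ (F \ bad).card + bad.card := by
      have := Finset.le_card_sdiff bad F
      omega
    have h11 : (F.card : ℝ) ≤ ((F.filter (fun e => ∑ v ∈ e, y v ≤ 1 - τ)).card : ℝ) +
        (bad.card : ℝ) := by
      have : F.card ≤ (F.filter (fun e => ∑ v ∈ e, y v ≤ 1 - τ)).card + bad.card := by omega
      exact_mod_cast this
    have h12 : c * (n : ℝ) ^ k ≤ ε / 2 * (n.choose k : ℝ) := by
      rw [hc, div_mul_eq_mul_div, div_le_iff₀ (by positivity)]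
      calc ε * (n : ℝ) ^ k ≤ ε * (2 * ((k.factorial : ℝ) * (n.choose k : ℝ))) :=
            mul_le_mul_of_nonneg_left hB hε.le
        _ = ε / 2 * (n.choose k : ℝ) * (4 * (k.factorial : ℝ)) := by ring
    linarith
  have hm1 : x1 * (n : ℝ) ≤ ((Fintype.card (Fin n) : ℕ) : ℝ) := by
    rw [Fintype.card_fin]
    have : x1 ≤ 1 := by linarith
    nlinarith
  obtain ⟨M, hMF, hM, hMc⟩ := hn1 (Fin n) (by rw [Fintype.card_fin]; exact hnn1) F hF
    (x1 * (n : ℝ)) (by positivity) hm1 claim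
  have hMc' : x * n + 1 ≤ (M.card : ℝ) := by
    have h3 : (1 - θ) * (x1 * (n : ℝ)) = (x1 + x) / 2 * n := by
      rw [← mul_assoc, hθx]
    rw [h3] at hMc
    linarith
  have hMc2 : ⌊x * n⌋₊ + 1 ≤ M.card := by
    have h3 : (⌊x * (n : ℝ)⌋₊ : ℝ) ≤ x * n := Nat.floor_le (by positivity)
    have h4 : ((⌊x * (n : ℝ)⌋₊ + 1 : ℕ) : ℝ) ≤ (M.card : ℝ) := by
      push_cast
      linarith
    exact_mod_cast h4
  obtain ⟨M', hM', hM'c⟩ := Finset.exists_subset_card_eq hMc2
  refine ⟨M', hM'.trans hMF, ?_, hM'c⟩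
  intro e he e' he' hne
  exact hM e (hM' he) e' (hM' he') hne

end Pool.Agent.W99.SAM
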